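import Pool.Agent.H27.ZF.TA

/-!
# Board zf, row RSG: random signs
-/

set_option autoImplicit false

namespace Pool.Agent.H30.ZF

open MeasureTheory Finset Pool.Agent.H27.ZF

theorem par (x y : ℂ) : ‖-y + x‖ ^ 2 + ‖y + x‖ ^ 2 = 2 * ‖x‖ ^ 2 + 2 * ‖y‖ ^ 2 := by
  simp only [Complex.sq_norm, Complex.normSq_apply, Complex.add_re, Complex.add_im,
    Complex.neg_re, Complex.neg_im]
  ring

theorem sgn_sum (c : ℕ → ℂ) (s : Finset ℕ) :
    ∑ A ∈ s.powerset, ‖∑ n ∈ s, (if n ∈ A then (1 : ℂ) else -1) * c n‖ ^ 2 =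
      2 ^ s.card * ∑ n ∈ s, ‖c n‖ ^ 2 := by
  induction s using Finset.induction_on with
  | empty => simp
  | insert a s ha ih =>
    rw [Finset.sum_powerset_insert ha, Finset.card_insert_of_notMem ha, Finset.sum_insert ha]
    have h1 : ∀ A ∈ s.powerset,
        ‖∑ n ∈ insert a s, (if n ∈ A then (1 : ℂ) else -1) * c n‖ ^ 2 =
          ‖-c a + ∑ n ∈ s, (if n ∈ A then (1 : ℂ) else -1) * c n‖ ^ 2 := by
      intro A hA
      have haA : a ∉ A := fun h => ha (Finset.mem_powerset.1 hA h)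
      rw [Finset.sum_insert ha, if_neg haA, neg_one_mul]
    have h2 : ∀ A ∈ s.powerset,
        ‖∑ n ∈ insert a s, (if n ∈ insert a A then (1 : ℂ) else -1) * c n‖ ^ 2 =
          ‖c a + ∑ n ∈ s, (if n ∈ A then (1 : ℂ) else -1) * c n‖ ^ 2 := by
      intro A hA
      rw [Finset.sum_insert ha, if_pos (Finset.mem_insert_self a A), one_mul]
      have h3 : ∑ n ∈ s, (if n ∈ insert a A then (1 : ℂ) else -1) * c n =
          ∑ n ∈ s, (if n ∈ A then (1 : ℂ) else -1) * c n := by
        refine Finset.sum_congr rfl fun n hn => ?_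
        have hna : n ≠ a := fun h => ha (h ▸ hn)
        simp only [Finset.mem_insert, hna, false_or]
      rw [h3]
    rw [Finset.sum_congr rfl h1, Finset.sum_congr rfl h2, ← Finset.sum_add_distrib]
    simp only [par]
    rw [Finset.sum_add_distrib, ← Finset.mul_sum, ih, Finset.sum_const, Finset.card_powerset,
      nsmul_eq_mul]
    push_cast
    ring

theorem pf_RSG : T_RSG := by
  intro ι _ W lam r P M hW hP h hM
  obtain ⟨s, hs⟩ : ∃ s, s = Bk r := ⟨_, rfl⟩
  have hpos : ∀ n ∈ s, n ≠ 0 := by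
    intro n hn
    rw [hs, Bk, Finset.mem_Ioc] at hn
    omega
  -- the mean square over the signs
  have hmean : ∀ (i : ι) (t : ℝ), ∑ A ∈ s.powerset,
      ENNReal.ofReal (‖DB (lam i) (fun n => if n ∈ A then (1 : ℂ) else -1) r (t * Complex.I)‖ ^ 2) =
        ENNReal.ofReal (2 ^ s.card * ∑ n ∈ s, ‖lam i n‖ ^ 2) := by
    intro i t
    rw [← ENNReal.ofReal_sum_of_nonneg (fun _ _ => by positivity)]
    congr 1
    have h1 := sgn_sum (fun n => lam i n * (n : ℂ) ^ (-(t * Complex.I))) s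
    have h2 : ∀ n ∈ s, ‖lam i n * (n : ℂ) ^ (-(t * Complex.I))‖ ^ 2 = ‖lam i n‖ ^ 2 := by
      intro n hn
      have h3 : ‖(n : ℂ) ^ (-(t * Complex.I))‖ = 1 := by
        rw [Complex.norm_natCast_cpow_of_pos (Nat.pos_of_ne_zero (hpos n hn))]
        simp
      rw [norm_mul, h3, mul_one]
    rw [Finset.sum_congr rfl h2] at h1
    rw [← h1]
    refine Finset.sum_congr rfl fun A _ => ?_
    unfold DB
    rw [← hs]
    simp only [mul_assoc]
  have hmeas : ∀ (i : ι) (b : ℕ → ℂ), Measurable fun t : ℝ =>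
      ENNReal.ofReal (‖DB (lam i) b r (t * Complex.I)‖ ^ 2) := by
    intro i b
    refine ENNReal.measurable_ofReal.comp ?_
    refine Measurable.pow_const (Measurable.norm ?_) 2
    unfold DB
    refine Finset.measurable_sum _ fun n _ => ?_
    refine Measurable.const_mul ?_ _
    refine Measurable.pow measurable_const ?_
    refine Measurable.neg ?_
    exact (Complex.measurable_ofReal.mul_const _)
  -- sum over the signs
  have h1 : ∑ A ∈ s.powerset, ∑ i, ENNReal.ofReal (W i) * ∫⁻ t in Set.Icc (-P) P,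
      ENNReal.ofReal (‖DB (lam i) (fun n => if n ∈ A then (1 : ℂ) else -1) r
        (t * Complex.I)‖ ^ 2) ≤ ∑ A ∈ s.powerset, ENNReal.ofReal M := by
    refine Finset.sum_le_sum fun A _ => h _ fun n => ?_
    split_ifs <;> simp
  rw [Finset.sum_comm] at h1
  have h2 : ∀ i : ι, ENNReal.ofReal (W i * (2 ^ s.card * ∑ n ∈ s, ‖lam i n‖ ^ 2)) ≤
      ∑ A ∈ s.powerset, ENNReal.ofReal (W i) * ∫⁻ t in Set.Icc (-P) P,
        ENNReal.ofReal (‖DB (lam i) (fun n => if n ∈ A then (1 : ℂ) else -1) r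
          (t * Complex.I)‖ ^ 2) := by
    intro i
    rw [← Finset.mul_sum, ← lintegral_finsetSum _ fun A _ => hmeas i _]
    simp only [hmean]
    rw [setLIntegral_const, Real.volume_Icc, ENNReal.ofReal_mul (hW i)]
    refine mul_le_mul_right ?_ _
    have h3 : (1 : ENNReal) ≤ ENNReal.ofReal (P - -P) := by
      rw [← ENNReal.ofReal_one]
      exact ENNReal.ofReal_le_ofReal (by linarith)
    calc _ = ENNReal.ofReal (2 ^ s.card * ∑ n ∈ s, ‖lam i n‖ ^ 2) * 1 := (mul_one _).symm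
      _ ≤ _ := by gcongr
  have h3 := (Finset.sum_le_sum fun i (_ : i ∈ Finset.univ) => h2 i).trans h1
  rw [← ENNReal.ofReal_sum_of_nonneg (fun i _ => mul_nonneg (hW i) (by positivity)),
    Finset.sum_const, Finset.card_powerset, nsmul_eq_mul] at h3
  have h4 : ((2 ^ s.card : ℕ) : ENNReal) * ENNReal.ofReal M = ENNReal.ofReal (2 ^ s.card * M) := by
    rw [ENNReal.ofReal_mul (by positivity)]
    congr 1
    rw [ENNReal.ofReal_pow (by norm_num)]
    simp
  rw [h4, ENNReal.ofReal_le_ofReal_iff (by positivity)] at h3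
  have h5 : ∑ i, W i * (2 ^ s.card * ∑ n ∈ s, ‖lam i n‖ ^ 2) =
      2 ^ s.card * ∑ i, W i * ∑ n ∈ s, ‖lam i n‖ ^ 2 := by
    rw [Finset.mul_sum]
    refine Finset.sum_congr rfl fun i _ => ?_
    ring
  rw [h5] at h3
  rw [← hs]
  exact le_of_mul_le_mul_left h3 (by positivity)

end Pool.Agent.H30.ZF
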